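import Mathlib
import Pool.Agent.H77R2.AssocLie

/-!
# The free Lie ring on an abelian group and the canonical map onto the Lie ring of a group
-/

set_option autoImplicit false

namespace Pool.Agent.Zk64.QL

open BurnLie

universe u v

/-- The elements `(v + w) - v - w` of the free Lie ring on the set `V`. -/
def addRel (V : Type u) [AddCommGroup V] : Set (FreeLieAlgebra ℤ V) :=
  {x | ∃ v w : V,
    x = FreeLieAlgebra.of ℤ (v + w) - FreeLieAlgebra.of ℤ v - FreeLieAlgebra.of ℤ w}

/-- The Lie ideal generated by the elements `(v + w) - v - w`. -/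
noncomputable def addIdeal (V : Type u) [AddCommGroup V] : LieIdeal ℤ (FreeLieAlgebra ℤ V) :=
  LieSubmodule.lieSpan ℤ (FreeLieAlgebra ℤ V) (addRel V)

/-- The free Lie ring `L[V]` on the abelian group `V`: the free Lie ring on the set `V`, in which
the formal sum of two elements of `V` is identified with their sum in `V`. -/
def FreeLie (V : Type u) [AddCommGroup V] : Type u := FreeLieAlgebra ℤ V ⧸ addIdeal V

variable {V : Type u} [AddCommGroup V] {M : Type v} [LieRing M]

noncomputable instance instLieRingFreeLie : LieRing (FreeLie V) :=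
  inferInstanceAs (LieRing (FreeLieAlgebra ℤ V ⧸ addIdeal V))

/-- The quotient map. -/
noncomputable def mkQ (x : FreeLieAlgebra ℤ V) : FreeLie V :=
  LieSubmodule.Quotient.mk (N := addIdeal V) x

theorem mkQ_surj (x : FreeLie V) : ∃ y, mkQ y = x := Submodule.Quotient.mk_surjective _ x

theorem mkQ_add (x y : FreeLieAlgebra ℤ V) : mkQ (x + y) = mkQ x + mkQ y := rfl

theorem mkQ_lie (x y : FreeLieAlgebra ℤ V) : mkQ ⁅x, y⁆ = ⁅mkQ x, mkQ y⁆ := rfl

/-- The canonical map `V → L[V]`. -/
noncomputable def ι (v : V) : FreeLie V := mkQ (FreeLieAlgebra.of ℤ v)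

/-- `FreeLieAlgebra.lift` as an additive map. -/
noncomputable def preLift (f : V →+ M) : FreeLieAlgebra ℤ V →+ M :=
  letI : LieAlgebra ℤ (FreeLieAlgebra ℤ V) := FreeLieAlgebra.instLieAlgebra ℤ V
  { toFun := FreeLieAlgebra.lift ℤ (fun v => f v)
    map_zero' := (FreeLieAlgebra.lift ℤ (fun v => f v)).map_zero
    map_add' := (FreeLieAlgebra.lift ℤ (fun v => f v)).map_add }

theorem preLift_lie (f : V →+ M) (x y : FreeLieAlgebra ℤ V) :
    preLift f ⁅x, y⁆ = ⁅preLift f x, preLift f y⁆ :=
  @LieHom.map_lie ℤ _ _ _ _ (FreeLieAlgebra.instLieAlgebra ℤ V) _ _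
    (FreeLieAlgebra.lift ℤ (fun v => f v)) x y

theorem preLift_of (f : V →+ M) (v : V) : preLift f (FreeLieAlgebra.of ℤ v) = f v :=
  FreeLieAlgebra.lift_of_apply (fun v => f v) v

theorem preLift_addIdeal (f : V →+ M) {x : FreeLieAlgebra ℤ V} (hx : x ∈ addIdeal V) :
    preLift f x = 0 := by
  let N : LieSubmodule ℤ (FreeLieAlgebra ℤ V) (FreeLieAlgebra ℤ V) :=
    { carrier := {y | preLift f y = 0}
      add_mem' := by intro a b ha hb; change preLift f (a + b) = 0; rw [map_add, show preLift f a = 0 from ha, show preLift f b = 0 from hb, add_zero]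
      zero_mem' := map_zero _
      smul_mem' := by
        intro c y hy
        change preLift f (c • y) = 0
        have h1 : preLift f (c • y) = c • preLift f y := map_zsmul (preLift f) c y
        rw [h1, show preLift f y = 0 from hy, smul_zero]
      lie_mem := by
        intro y z hz
        change preLift f ⁅y, z⁆ = 0
        rw [preLift_lie]
        have hz' : preLift f z = 0 := hz
        rw [hz', lie_zero] }
  have h : addIdeal V ≤ N := by
    refine LieSubmodule.lieSpan_le.2 ?_
    rintro _ ⟨v, w, rfl⟩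
    change preLift f _ = 0
    rw [map_sub, map_sub, preLift_of, preLift_of, preLift_of, map_add]
    abel
  exact h hx

/-- The additive map underlying `lift`. -/
noncomputable def liftAdd (f : V →+ M) : FreeLie V →+ M :=
  QuotientAddGroup.lift (addIdeal V).toSubmodule.toAddSubgroup (preLift f)
    (fun _ hx => preLift_addIdeal f hx)

theorem liftAdd_mkQ (f : V →+ M) (x : FreeLieAlgebra ℤ V) : liftAdd f (mkQ x) = preLift f x := rfl

/-- The homomorphism of Lie rings `L[V] → M` which extends the additive map `f : V → M`. -/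
noncomputable def lift (f : V →+ M) : FreeLie V →ₗ⁅ℤ⁆ M :=
  { toFun := liftAdd f
    map_add' := map_add _
    map_smul' := fun c x => map_zsmul (liftAdd f) c x
    map_lie' := by
      intro x y
      obtain ⟨x, rfl⟩ := mkQ_surj x
      obtain ⟨y, rfl⟩ := mkQ_surj y
      rw [← mkQ_lie]
      rw [liftAdd_mkQ, liftAdd_mkQ, liftAdd_mkQ, preLift_lie] }

@[simp] theorem lift_ι (f : V →+ M) (v : V) : lift f (ι v) = f v := preLift_of f v

/-- The degree two part `L_2[V]` of `L[V]`: the sums of brackets of elements of `V`. -/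
noncomputable def degTwo (V : Type u) [AddCommGroup V] : AddSubgroup (FreeLie V) :=
  AddSubgroup.closure {x | ∃ v w : V, x = ⁅ι v, ι w⁆}

/-- The canonical homomorphism `L[V] → E_0^*(G)`, where `V = G/[G,G]` is the degree one part of
`E_0^*(G)`; it is the identity on `V`. -/
noncomputable def canon (G : Type u) [Group G] : FreeLie (Grd G 0) →ₗ⁅ℤ⁆ AssocLie G :=
  lift (ofL 0)

/-- The homomorphism `F : L → M` of Lie rings has an element `x` in its kernel such that no nonzero
integer multiple of `x` belongs to the Lie ideal of `L` generated by those elements of `Q` which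
`F` kills. -/
def HasFurtherRelation {L : Type u} [LieRing L] (F : L →ₗ⁅ℤ⁆ M) (Q : AddSubgroup L) : Prop :=
  ∃ x : L, F x = 0 ∧
    ∀ n : ℤ, n ≠ 0 → n • x ∉ LieSubmodule.lieSpan ℤ L {y | y ∈ Q ∧ F y = 0}

/-- The kernel of the canonical homomorphism `L[V] → E_0^*(G)` contains an element no nonzero
multiple of which belongs to the Lie ideal generated by the degree two part of the kernel. -/
def NotQuadratic (G : Type u) [Group G] : Prop :=
  HasFurtherRelation (canon G) (degTwo (Grd G 0))

theorem span_le_ker {L : Type u} [LieRing L] (F : L →ₗ⁅ℤ⁆ M) (S : Set L)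
    (hS : ∀ x ∈ S, F x = 0) {x : L} (hx : x ∈ LieSubmodule.lieSpan ℤ L S) : F x = 0 := by
  have h : LieSubmodule.lieSpan ℤ L S ≤ (F.ker : LieSubmodule ℤ L L) :=
    LieSubmodule.lieSpan_le.2 (fun y hy => LieHom.mem_ker.2 (hS y hy))
  exact LieHom.mem_ker.1 (h hx)

end Pool.Agent.Zk64.QL
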