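import Mathlib

/-!
# First and second order terms of the Magnus representation of `IA_3`
-/

set_option autoImplicit false

namespace Pool.Agent.Zk64.QL

/-- `IA_n`: the automorphisms of the free group on `x_1, …, x_n` which induce the identity on its
abelianization. -/
def IA (n : ℕ) : Subgroup (MulAut (FreeGroup (Fin n))) where
  carrier := {φ | ∀ w, Abelianization.of (φ w) = Abelianization.of w}
  mul_mem' := by
    intro φ ψ hφ hψ w
    rw [MulAut.mul_apply, hφ, hψ]
  one_mem' := fun w => rfl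
  inv_mem' := by
    intro φ hφ w
    have h := hφ (φ⁻¹ w)
    rw [MulAut.apply_inv_self] at h
    exact h.symm

theorem mem_IA {n : ℕ} {φ : MulAut (FreeGroup (Fin n))} :
    φ ∈ IA n ↔ ∀ w, Abelianization.of (φ w) = Abelianization.of w := Iff.rfl

theorem IA_hom {n : ℕ} {φ : MulAut (FreeGroup (Fin n))} (hφ : φ ∈ IA n) {A : Type*} [CommGroup A]
    (f : FreeGroup (Fin n) →* A) (w : FreeGroup (Fin n)) : f (φ w) = f w := by
  have h := congrArg (Abelianization.lift f) (hφ w)
  simpa using h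

/-- The ring `ℤ[ε, δ]/(ε², δ²)`. -/
@[ext] structure Q4 where
  /-- constant term -/
  a : ℤ
  /-- coefficient of `ε` -/
  b : ℤ
  /-- coefficient of `δ` -/
  c : ℤ
  /-- coefficient of `ε δ` -/
  d : ℤ

namespace Q4

instance : Zero Q4 := ⟨⟨0, 0, 0, 0⟩⟩
instance : One Q4 := ⟨⟨1, 0, 0, 0⟩⟩
instance : Add Q4 := ⟨fun x y => ⟨x.a + y.a, x.b + y.b, x.c + y.c, x.d + y.d⟩⟩
instance : Neg Q4 := ⟨fun x => ⟨-x.a, -x.b, -x.c, -x.d⟩⟩
instance : Mul Q4 := ⟨fun x y => ⟨x.a * y.a, x.a * y.b + x.b * y.a, x.a * y.c + x.c * y.a,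
  x.a * y.d + x.b * y.c + x.c * y.b + x.d * y.a⟩⟩

@[simp] theorem zero_a : (0 : Q4).a = 0 := rfl
@[simp] theorem zero_b : (0 : Q4).b = 0 := rfl
@[simp] theorem zero_c : (0 : Q4).c = 0 := rfl
@[simp] theorem zero_d : (0 : Q4).d = 0 := rfl
@[simp] theorem one_a : (1 : Q4).a = 1 := rfl
@[simp] theorem one_b : (1 : Q4).b = 0 := rfl
@[simp] theorem one_c : (1 : Q4).c = 0 := rfl
@[simp] theorem one_d : (1 : Q4).d = 0 := rfl
@[simp] theorem add_a (x y : Q4) : (x + y).a = x.a + y.a := rfl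
@[simp] theorem add_b (x y : Q4) : (x + y).b = x.b + y.b := rfl
@[simp] theorem add_c (x y : Q4) : (x + y).c = x.c + y.c := rfl
@[simp] theorem add_d (x y : Q4) : (x + y).d = x.d + y.d := rfl
@[simp] theorem neg_a (x : Q4) : (-x).a = -x.a := rfl
@[simp] theorem neg_b (x : Q4) : (-x).b = -x.b := rfl
@[simp] theorem neg_c (x : Q4) : (-x).c = -x.c := rfl
@[simp] theorem neg_d (x : Q4) : (-x).d = -x.d := rfl
@[simp] theorem mul_a (x y : Q4) : (x * y).a = x.a * y.a := rfl
@[simp] theorem mul_b (x y : Q4) : (x * y).b = x.a * y.b + x.b * y.a := rfl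
@[simp] theorem mul_c (x y : Q4) : (x * y).c = x.a * y.c + x.c * y.a := rfl
@[simp] theorem mul_d (x y : Q4) :
    (x * y).d = x.a * y.d + x.b * y.c + x.c * y.b + x.d * y.a := rfl

instance : CommRing Q4 := CommRing.ofMinimalAxioms
  (by intro a b c; ext <;> simp <;> ring)
  (by intro a; ext <;> simp)
  (by intro a; ext <;> simp)
  (by intro a b c; ext <;> simp <;> ring)
  (by intro a b; ext <;> simp <;> ring)
  (by intro a; ext <;> simp)
  (by intro a b c; ext <;> simp <;> ring)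

/-- constant term -/
def aH : Q4 →+ ℤ := AddMonoidHom.mk' (fun x => x.a) (fun _ _ => rfl)
/-- coefficient of `ε` -/
def bH : Q4 →+ ℤ := AddMonoidHom.mk' (fun x => x.b) (fun _ _ => rfl)
/-- coefficient of `δ` -/
def cH : Q4 →+ ℤ := AddMonoidHom.mk' (fun x => x.c) (fun _ _ => rfl)
/-- coefficient of `ε δ` -/
def dH : Q4 →+ ℤ := AddMonoidHom.mk' (fun x => x.d) (fun _ _ => rfl)

theorem mul_map_b (M N : Matrix (Fin 3) (Fin 3) Q4) :
    (M * N).map Q4.b = M.map Q4.a * N.map Q4.b + M.map Q4.b * N.map Q4.a := by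
  ext i j
  change bH ((M * N) i j) = _
  rw [Matrix.mul_apply, map_sum]
  simp only [Matrix.add_apply, Matrix.mul_apply, Matrix.map_apply, ← Finset.sum_add_distrib]
  rfl

theorem mul_map_c (M N : Matrix (Fin 3) (Fin 3) Q4) :
    (M * N).map Q4.c = M.map Q4.a * N.map Q4.c + M.map Q4.c * N.map Q4.a := by
  ext i j
  change cH ((M * N) i j) = _
  rw [Matrix.mul_apply, map_sum]
  simp only [Matrix.add_apply, Matrix.mul_apply, Matrix.map_apply, ← Finset.sum_add_distrib]
  rfl

theorem mul_map_d (M N : Matrix (Fin 3) (Fin 3) Q4) :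
    (M * N).map Q4.d = M.map Q4.a * N.map Q4.d + M.map Q4.b * N.map Q4.c
      + M.map Q4.c * N.map Q4.b + M.map Q4.d * N.map Q4.a := by
  ext i j
  change dH ((M * N) i j) = _
  rw [Matrix.mul_apply, map_sum]
  simp only [Matrix.add_apply, Matrix.mul_apply, Matrix.map_apply, ← Finset.sum_add_distrib]
  rfl

/-- the unit `1 + x ε + y δ` if `x y = 0` -/
def unit (x y : ℤ) (h : x * y = 0) : Q4ˣ where
  val := ⟨1, x, y, 0⟩
  inv := ⟨1, -x, -y, 0⟩
  val_inv := by ext <;> simp [h, mul_comm y x]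
  inv_val := by ext <;> simp [h, mul_comm y x]

end Q4

/-- The affine group `Q4ˣ ⋉ Q4³`. -/
@[ext] structure Aff where
  /-- linear part -/
  u : Q4ˣ
  /-- translation part -/
  v : Fin 3 → Q4

namespace Aff

instance : Mul Aff := ⟨fun x y => ⟨x.u * y.u, fun j => x.v j + x.u * y.v j⟩⟩
instance : One Aff := ⟨⟨1, 0⟩⟩
instance : Inv Aff := ⟨fun x => ⟨x.u⁻¹, fun j => -(((x.u⁻¹ : Q4ˣ) : Q4) * x.v j)⟩⟩

@[simp] theorem mul_u (x y : Aff) : (x * y).u = x.u * y.u := rfl
@[simp] theorem mul_v (x y : Aff) (j : Fin 3) : (x * y).v j = x.v j + x.u * y.v j := rfl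
@[simp] theorem one_u : (1 : Aff).u = 1 := rfl
@[simp] theorem one_v (j : Fin 3) : (1 : Aff).v j = 0 := rfl
@[simp] theorem inv_u (x : Aff) : (x⁻¹).u = x.u⁻¹ := rfl
@[simp] theorem inv_v (x : Aff) (j : Fin 3) :
    (x⁻¹).v j = -(((x.u⁻¹ : Q4ˣ) : Q4) * x.v j) := rfl

theorem ext' {x y : Aff} (h : x.u = y.u) (h' : ∀ j, x.v j = y.v j) : x = y :=
  Aff.ext h (funext h')

instance : Group Aff := Group.ofLeftAxioms
  (fun x y z => ext' (by simp [mul_assoc]) (fun j => by simp; ring))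
  (fun x => ext' (by simp) (fun j => by simp))
  (fun x => ext' (by simp) (fun j => by simp))

/-- the linear part as a homomorphism -/
def uH : Aff →* Q4ˣ := MonoidHom.mk' Aff.u (fun _ _ => rfl)

/-- the action of a matrix on the translation part -/
def T (R : Matrix (Fin 3) (Fin 3) Q4) : Aff →* Aff :=
  MonoidHom.mk' (fun x => ⟨x.u, fun j => ∑ k, x.v k * R k j⟩) (fun x y => ext' rfl (fun j => by
    simp only [mul_v, Fin.sum_univ_three]
    ring))

end Aff

/-- The free group of rank three. -/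
abbrev F3 := FreeGroup (Fin 3)

/-- `x_p ↦ 1 + ε`, `x_q ↦ 1 + δ`, and the third generator goes to `1`. -/
def chi (p q : Fin 3) (h : p ≠ q) (i : Fin 3) : Q4ˣ :=
  Q4.unit (if i = p then 1 else 0) (if i = q then 1 else 0) (by
    by_cases h1 : i = p
    · subst h1; simp [h]
    · simp [h1])

/-- The crossed homomorphism of Fox derivatives, together with the evaluation. -/
def D (p q : Fin 3) (h : p ≠ q) : F3 →* Aff :=
  FreeGroup.lift fun i => ⟨chi p q h i, Pi.single i 1⟩

/-- The exponent sum of `x_k`. -/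
def ex (k : Fin 3) : F3 →* Multiplicative ℤ :=
  FreeGroup.lift fun i => Multiplicative.ofAdd (if i = k then 1 else 0)

/-- The exponent sum of `x_k` as an integer. -/
def e (k : Fin 3) (w : F3) : ℤ := Multiplicative.toAdd (ex k w)

theorem e_mul (k : Fin 3) (w w' : F3) : e k (w * w') = e k w + e k w' := by simp [e]

theorem e_of (k i : Fin 3) : e k (FreeGroup.of i) = if i = k then 1 else 0 := by simp [e, ex]

/-- Two functions on the free group with the same deviation from additivity and the same values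
at the generators agree. -/
theorem crossed_unique (f g : F3 → ℤ)
    (h : ∀ w w', f (w * w') - (f w + f w') = g (w * w') - (g w + g w'))
    (h' : ∀ i, f (FreeGroup.of i) = g (FreeGroup.of i)) (w : F3) : f w = g w := by
  let F : F3 →* Multiplicative ℤ := MonoidHom.mk' (fun w => Multiplicative.ofAdd (f w - g w))
    (fun w w' => by
      rw [← ofAdd_add]
      congr 1
      have := h w w'
      linarith)
  have hF : F = 1 := by
    apply FreeGroup.ext_hom
    intro i
    change Multiplicative.ofAdd (f _ - g _) = 1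
    rw [h', sub_self]
    rfl
  have h1 : Multiplicative.ofAdd (f w - g w) = 1 := DFunLike.congr_fun hF w
  have h2 : f w - g w = 0 := h1
  linarith

section D

variable (p q : Fin 3) (h : p ≠ q)

theorem D_u_a (w : F3) : ((D p q h w).u : Q4).a = 1 := by
  induction w using FreeGroup.induction_on with
  | C1 => simp
  | of i => simp [D, chi, Q4.unit]
  | inv_of i hi => simp [D, chi, Q4.unit, Units.inv_mk]
  | mul x y hx hy => simp [hx, hy]

theorem D_v_a (j : Fin 3) (w : F3) : ((D p q h w).v j).a = e j w := by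
  refine crossed_unique (fun w => ((D p q h w).v j).a) (e j) ?_ ?_ w
  · intro w w'
    simp [D_u_a, e_mul]
  · intro i
    by_cases hij : i = j
    · subst hij; simp [D, e_of]
    · simp [D, e_of, hij, Ne.symm hij]

theorem D_u_b (w : F3) : ((D p q h w).u : Q4).b = e p w := by
  refine crossed_unique (fun w => ((D p q h w).u : Q4).b) (e p) ?_ ?_ w
  · intro w w'
    simp [D_u_a, e_mul]; ring
  · intro i
    simp [D, e_of, chi, Q4.unit]

theorem D_u_c (w : F3) : ((D p q h w).u : Q4).c = e q w := by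
  refine crossed_unique (fun w => ((D p q h w).u : Q4).c) (e q) ?_ ?_ w
  · intro w w'
    simp [D_u_a, e_mul]; ring
  · intro i
    simp [D, e_of, chi, Q4.unit]

theorem D_v_b_mul (j : Fin 3) (w w' : F3) : ((D p q h (w * w')).v j).b =
    ((D p q h w).v j).b + ((D p q h w').v j).b + e p w * e j w' := by
  simp [D_u_a, D_u_b, D_v_a]; ring

theorem D_v_c_mul (j : Fin 3) (w w' : F3) : ((D p q h (w * w')).v j).c =
    ((D p q h w).v j).c + ((D p q h w').v j).c + e q w * e j w' := by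
  simp [D_u_a, D_u_c, D_v_a]; ring

theorem D_v_b_of (i j : Fin 3) : ((D p q h (FreeGroup.of i)).v j).b = 0 := by
  by_cases hij : i = j
  · subst hij; simp [D]
  · simp [D, Ne.symm hij]

theorem D_v_c_of (i j : Fin 3) : ((D p q h (FreeGroup.of i)).v j).c = 0 := by
  by_cases hij : i = j
  · subst hij; simp [D]
  · simp [D, Ne.symm hij]

end D

/-- The coefficient of `s_k` in the Fox derivative with respect to `x_j`. -/
def f (k j : Fin 3) (w : F3) : ℤ := ((D k (k + 1) (by revert k; decide) w).v j).b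

theorem f_mul (k j : Fin 3) (w w' : F3) : f k j (w * w') = f k j w + f k j w' + e k w * e j w' :=
  D_v_b_mul _ _ _ _ _ _

theorem f_of (k j i : Fin 3) : f k j (FreeGroup.of i) = 0 := D_v_b_of _ _ _ _ _

theorem D_v_b (p q : Fin 3) (h : p ≠ q) (j : Fin 3) (w : F3) :
    ((D p q h w).v j).b = f p j w := by
  refine crossed_unique (fun w => ((D p q h w).v j).b) (f p j) ?_ ?_ w
  · intro w w'
    rw [D_v_b_mul, f_mul]; ring
  · intro i
    rw [D_v_b_of, f_of]

theorem D_v_c (p q : Fin 3) (h : p ≠ q) (j : Fin 3) (w : F3) :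
    ((D p q h w).v j).c = f q j w := by
  refine crossed_unique (fun w => ((D p q h w).v j).c) (f q j) ?_ ?_ w
  · intro w w'
    rw [D_v_c_mul, f_mul]; ring
  · intro i
    rw [D_v_c_of, f_of]

theorem f_anti {k j : Fin 3} (hkj : k ≠ j) (w : F3) : f k j w + f j k w = e k w * e j w := by
  refine crossed_unique (fun w => f k j w + f j k w) (fun w => e k w * e j w) ?_ ?_ w
  · intro w w'
    simp only [f_mul, e_mul]; ring
  · intro i
    simp only [f_of, e_of]
    by_cases h1 : i = k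
    · subst h1; simp [hkj]
    · simp [h1]

theorem f_diag (k : Fin 3) (w : F3) : 2 * f k k w = e k w * (e k w - 1) := by
  refine crossed_unique (fun w => 2 * f k k w) (fun w => e k w * (e k w - 1)) ?_ ?_ w
  · intro w w'
    simp only [f_mul, e_mul]; ring
  · intro i
    simp only [f_of, e_of]
    by_cases h1 : i = k
    · simp [h1]
    · simp [h1]

/-! ### The Magnus representation -/

/-- The Magnus matrix. -/
def rho (p q : Fin 3) (h : p ≠ q) (φ : MulAut F3) : Matrix (Fin 3) (Fin 3) Q4 :=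
  Matrix.of fun i j => (D p q h (φ (FreeGroup.of i))).v j

section rho

variable (p q : Fin 3) (h : p ≠ q)

theorem D_comp {φ : MulAut F3} (hφ : φ ∈ IA 3) (w : F3) :
    D p q h (φ w) = Aff.T (rho p q h φ) (D p q h w) := by
  have h1 : (D p q h).comp φ.toMonoidHom = (Aff.T (rho p q h φ)).comp (D p q h) := by
    apply FreeGroup.ext_hom
    intro i
    apply Aff.ext'
    · change Aff.uH.comp (D p q h) (φ (FreeGroup.of i)) = Aff.uH.comp (D p q h) (FreeGroup.of i)
      exact IA_hom hφ _ _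
    · intro j
      change (D p q h (φ (FreeGroup.of i))).v j = ∑ k, (D p q h (FreeGroup.of i)).v k * rho p q h φ k j
      simp [D, rho, Pi.single_apply]
  exact DFunLike.congr_fun h1 w

theorem rho_mul {φ : MulAut F3} (hφ : φ ∈ IA 3) (ψ : MulAut F3) :
    rho p q h (φ * ψ) = rho p q h ψ * rho p q h φ := by
  ext1 i j
  rw [Matrix.mul_apply]
  change (D p q h (φ (ψ (FreeGroup.of i)))).v j = _
  rw [D_comp p q h hφ]
  rfl

theorem rho_a {φ : MulAut F3} (hφ : φ ∈ IA 3) : (rho p q h φ).map Q4.a = 1 := by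
  ext i j
  change ((D p q h (φ (FreeGroup.of i))).v j).a = _
  rw [D_v_a]
  have h1 : ex j (φ (FreeGroup.of i)) = ex j (FreeGroup.of i) := IA_hom hφ _ _
  rw [e, h1]
  change e j _ = _
  rw [e_of, Matrix.one_apply]

/-- The linear term. -/
def L (k : Fin 3) (φ : MulAut F3) : Matrix (Fin 3) (Fin 3) ℤ :=
  Matrix.of fun i j => f k j (φ (FreeGroup.of i))

theorem rho_b (φ : MulAut F3) : (rho p q h φ).map Q4.b = L p φ := by
  ext i j
  exact D_v_b p q h j _

theorem rho_c (φ : MulAut F3) : (rho p q h φ).map Q4.c = L q φ := by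
  ext i j
  exact D_v_c p q h j _

/-- The quadratic term: coefficient of `s_p s_q`. -/
def S (φ : MulAut F3) : Matrix (Fin 3) (Fin 3) ℤ := (rho p q h φ).map Q4.d

theorem S_mul {φ ψ : MulAut F3} (hφ : φ ∈ IA 3) (hψ : ψ ∈ IA 3) :
    S p q h (φ * ψ) = S p q h φ + S p q h ψ + L p ψ * L q φ + L q ψ * L p φ := by
  rw [S, rho_mul p q h hφ, Q4.mul_map_d, rho_a p q h hφ, rho_a p q h hψ, rho_b, rho_c, rho_b,
    rho_c, one_mul, mul_one]
  simp only [S]
  abel

end rho

theorem L_mul (k : Fin 3) {φ ψ : MulAut F3} (hφ : φ ∈ IA 3) (hψ : ψ ∈ IA 3) :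
    L k (φ * ψ) = L k φ + L k ψ := by
  have hk : k ≠ k + 1 := by revert k; decide
  rw [← rho_b k (k + 1) hk, rho_mul _ _ _ hφ, Q4.mul_map_b, rho_a _ _ _ hφ, rho_a _ _ _ hψ, rho_b,
    rho_b, one_mul, mul_one]

theorem e_IA {φ : MulAut F3} (hφ : φ ∈ IA 3) (k : Fin 3) (w : F3) : e k (φ w) = e k w :=
  congrArg Multiplicative.toAdd (IA_hom hφ (ex k) w)

theorem L_anti {φ : MulAut F3} (hφ : φ ∈ IA 3) {k j : Fin 3} (h : k ≠ j) (i : Fin 3) :
    L k φ i j = - L j φ i k := by
  have h1 := f_anti h (φ (FreeGroup.of i))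
  rw [e_IA hφ, e_IA hφ, e_of, e_of] at h1
  have h2 : ((if i = k then 1 else 0) * (if i = j then 1 else 0) : ℤ) = 0 := by
    by_cases h3 : i = k
    · subst h3; simp [h]
    · simp [h3]
  rw [h2] at h1
  change f k j _ = - f j k _
  linarith

theorem L_diag {φ : MulAut F3} (hφ : φ ∈ IA 3) (k i : Fin 3) : L k φ i k = 0 := by
  have h1 := f_diag k (φ (FreeGroup.of i))
  rw [e_IA hφ, e_of] at h1
  have h2 : ((if i = k then 1 else 0) * ((if i = k then 1 else 0) - 1) : ℤ) = 0 := by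
    by_cases h3 : i = k <;> simp [h3]
  rw [h2] at h1
  change f k k _ = 0
  linarith

open scoped commutatorElement

theorem comm_mul (φ ψ : MulAut F3) : ⁅φ, ψ⁆ * (ψ * φ) = φ * ψ := by
  simp only [commutatorElement_def]; group

theorem comm_mem {φ ψ : MulAut F3} (hφ : φ ∈ IA 3) (hψ : ψ ∈ IA 3) : ⁅φ, ψ⁆ ∈ IA 3 := by
  rw [commutatorElement_def]
  exact mul_mem (mul_mem (mul_mem hφ hψ) (inv_mem hφ)) (inv_mem hψ)

theorem L_comm (k : Fin 3) {φ ψ : MulAut F3} (hφ : φ ∈ IA 3) (hψ : ψ ∈ IA 3) :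
    L k ⁅φ, ψ⁆ = 0 := by
  have h := congrArg (L k) (comm_mul φ ψ)
  rw [L_mul k (comm_mem hφ hψ) (mul_mem hψ hφ), L_mul k hψ hφ, L_mul k hφ hψ,
    add_comm (L k ψ)] at h
  simpa using h

theorem S_comm (p q : Fin 3) (h : p ≠ q) {φ ψ : MulAut F3} (hφ : φ ∈ IA 3) (hψ : ψ ∈ IA 3) :
    S p q h ⁅φ, ψ⁆ =
      L p ψ * L q φ + L q ψ * L p φ - (L p φ * L q ψ + L q φ * L p ψ) := by
  have h1 := congrArg (S p q h) (comm_mul φ ψ)
  rw [S_mul p q h (comm_mem hφ hψ) (mul_mem hψ hφ), S_mul p q h hψ hφ, S_mul p q h hφ hψ,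
    L_comm p hφ hψ, L_comm q hφ hψ, mul_zero, mul_zero, add_zero, add_zero] at h1
  have h2 : S p q h ⁅φ, ψ⁆ = (S p q h φ + S p q h ψ + L p ψ * L q φ + L q ψ * L p φ) -
      (S p q h ψ + S p q h φ + L p φ * L q ψ + L q φ * L p ψ) := by
    rw [← h1]; abel
  rw [h2]; abel

/-- first coordinate of the degree one part -/
def tA (φ : MulAut F3) : ℤ := L 0 φ 0 1 + L 1 φ 2 2
/-- second coordinate of the degree one part -/
def tB (φ : MulAut F3) : ℤ := L 0 φ 0 2 - L 1 φ 1 2
/-- third coordinate of the degree one part -/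
def tC (φ : MulAut F3) : ℤ := L 1 φ 0 2

/-- first coordinate of the degree two part -/
def sU (g : MulAut F3) : ℤ := S 1 2 (by decide) g 0 1
/-- second coordinate of the degree two part -/
def sV (g : MulAut F3) : ℤ := - S 1 2 (by decide) g 0 2
/-- third coordinate of the degree two part -/
def sM (g : MulAut F3) : ℤ := - S 0 2 (by decide) g 0 1 + S 1 2 (by decide) g 1 1

theorem sU_comm {φ ψ : MulAut F3} (hφ : φ ∈ IA 3) (hψ : ψ ∈ IA 3) :
    sU ⁅φ, ψ⁆ = tC φ * tA ψ - tA φ * tC ψ := by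
  have a1 := fun i => L_anti hφ (show (1 : Fin 3) ≠ 0 by decide) i
  have a2 := fun i => L_anti hφ (show (2 : Fin 3) ≠ 0 by decide) i
  have a3 := fun i => L_anti hφ (show (2 : Fin 3) ≠ 1 by decide) i
  have b1 := fun i => L_anti hψ (show (1 : Fin 3) ≠ 0 by decide) i
  have b2 := fun i => L_anti hψ (show (2 : Fin 3) ≠ 0 by decide) i
  have b3 := fun i => L_anti hψ (show (2 : Fin 3) ≠ 1 by decide) i
  simp only [sU, tA, tC, S_comm _ _ _ hφ hψ, Matrix.sub_apply, Matrix.add_apply, Matrix.mul_apply,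
    Fin.sum_univ_three, a1, a2, a3, b1, b2, b3, L_diag hφ, L_diag hψ]
  ring

theorem sV_comm {φ ψ : MulAut F3} (hφ : φ ∈ IA 3) (hψ : ψ ∈ IA 3) :
    sV ⁅φ, ψ⁆ = tC φ * tB ψ - tB φ * tC ψ := by
  have a1 := fun i => L_anti hφ (show (1 : Fin 3) ≠ 0 by decide) i
  have a2 := fun i => L_anti hφ (show (2 : Fin 3) ≠ 0 by decide) i
  have a3 := fun i => L_anti hφ (show (2 : Fin 3) ≠ 1 by decide) i
  have b1 := fun i => L_anti hψ (show (1 : Fin 3) ≠ 0 by decide) i
  have b2 := fun i => L_anti hψ (show (2 : Fin 3) ≠ 0 by decide) i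
  have b3 := fun i => L_anti hψ (show (2 : Fin 3) ≠ 1 by decide) i
  simp only [sV, tB, tC, S_comm _ _ _ hφ hψ, Matrix.sub_apply, Matrix.add_apply, Matrix.mul_apply,
    Fin.sum_univ_three, a1, a2, a3, b1, b2, b3, L_diag hφ, L_diag hψ]
  ring

theorem sM_comm {φ ψ : MulAut F3} (hφ : φ ∈ IA 3) (hψ : ψ ∈ IA 3) :
    sM ⁅φ, ψ⁆ = tA φ * tB ψ - tB φ * tA ψ := by
  have a1 := fun i => L_anti hφ (show (1 : Fin 3) ≠ 0 by decide) i
  have a2 := fun i => L_anti hφ (show (2 : Fin 3) ≠ 0 by decide) i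
  have a3 := fun i => L_anti hφ (show (2 : Fin 3) ≠ 1 by decide) i
  have b1 := fun i => L_anti hψ (show (1 : Fin 3) ≠ 0 by decide) i
  have b2 := fun i => L_anti hψ (show (2 : Fin 3) ≠ 0 by decide) i
  have b3 := fun i => L_anti hψ (show (2 : Fin 3) ≠ 1 by decide) i
  simp only [sM, tA, tB, S_comm _ _ _ hφ hψ, Matrix.sub_apply, Matrix.add_apply, Matrix.mul_apply,
    Fin.sum_univ_three, a1, a2, a3, b1, b2, b3, L_diag hφ, L_diag hψ]
  ring

end Pool.Agent.Zk64.QL
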