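import Mathlib
import Pool.Agent.Zk64.FreeLieQ
import Pool.Agent.Zk64.MagnusQ

/-!
# A cubic relation in the Lie ring of `IA_3`
-/

set_option autoImplicit false
set_option linter.unusedSimpArgs false
set_option linter.unnecessarySeqFocus false

namespace Pool.Agent.Zk64.QL

open BurnLie
open scoped commutatorElement

universe u v

/-! ### Additive maps on the components of the associated Lie ring -/

/-- An additive map on a component of the associated Lie ring. -/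
def grLift {G : Type u} [Group G] {A : Type v} [AddCommGroup A] (n : ℕ) (f : G → A)
    (h1 : ∀ g ∈ lcs G n, ∀ h ∈ lcs G n, f (g * h) = f g + f h)
    (h2 : ∀ g ∈ lcs G (n + 1), f g = 0) : Grd G n →+ A :=
  MonoidHom.toAdditiveLeft (QuotientGroup.lift ((lcs G (n + 1)).subgroupOf (lcs G n))
    (MonoidHom.mk' (fun g : lcs G n => Multiplicative.ofAdd (f g))
      (fun g h => by
        rw [← ofAdd_add, Subgroup.coe_mul, h1 g g.2 h h.2]))
    (by
      intro g hg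
      rw [Subgroup.mem_subgroupOf] at hg
      change Multiplicative.ofAdd (f g) = 1
      rw [h2 g hg]
      rfl))

theorem grLift_mk {G : Type u} [Group G] {A : Type v} [AddCommGroup A] (n : ℕ) (f : G → A)
    (h1 : ∀ g ∈ lcs G n, ∀ h ∈ lcs G n, f (g * h) = f g + f h)
    (h2 : ∀ g ∈ lcs G (n + 1), f g = 0) (g : lcs G n) : grLift n f h1 h2 (grMk n g) = f g := rfl

/-! ### A nilpotent Lie ring -/

/-- A nilpotent Lie ring with basis `a, b, c, u, v, m, z` and brackets `[c, a] = u`, `[c, b] = v`,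
`[a, b] = m`, `[c, m] = z`, `[a, v] = z`. -/
def NL : Type := Fin 7 → ℤ

namespace NL

instance : AddCommGroup NL := inferInstanceAs (AddCommGroup (Fin 7 → ℤ))

theorem add_app (x y : NL) (i : Fin 7) : (x + y) i = x i + y i := rfl

theorem zero_app (i : Fin 7) : (0 : NL) i = 0 := rfl

instance : Bracket NL NL := ⟨fun x y => ![0, 0, 0, x 2 * y 0 - x 0 * y 2, x 2 * y 1 - x 1 * y 2,
  x 0 * y 1 - x 1 * y 0, x 2 * y 5 - x 5 * y 2 + x 0 * y 4 - x 4 * y 0]⟩

theorem br_def (x y : NL) : ⁅x, y⁆ = ![0, 0, 0, x 2 * y 0 - x 0 * y 2, x 2 * y 1 - x 1 * y 2,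
  x 0 * y 1 - x 1 * y 0, x 2 * y 5 - x 5 * y 2 + x 0 * y 4 - x 4 * y 0] := rfl

theorem br0 (x y : NL) : ⁅x, y⁆ 0 = 0 := rfl
theorem br1 (x y : NL) : ⁅x, y⁆ 1 = 0 := rfl
theorem br2 (x y : NL) : ⁅x, y⁆ 2 = 0 := rfl
theorem br3 (x y : NL) : ⁅x, y⁆ 3 = x 2 * y 0 - x 0 * y 2 := rfl
theorem br4 (x y : NL) : ⁅x, y⁆ 4 = x 2 * y 1 - x 1 * y 2 := rfl
theorem br5 (x y : NL) : ⁅x, y⁆ 5 = x 0 * y 1 - x 1 * y 0 := rfl
theorem br6 (x y : NL) : ⁅x, y⁆ 6 = x 2 * y 5 - x 5 * y 2 + x 0 * y 4 - x 4 * y 0 := rfl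

/-- The element with the given coordinates. -/
def mk (a b c u v m z : ℤ) : NL := ![a, b, c, u, v, m, z]

theorem mk0 (a b c u v m z : ℤ) : mk a b c u v m z 0 = a := rfl
theorem mk1 (a b c u v m z : ℤ) : mk a b c u v m z 1 = b := rfl
theorem mk2 (a b c u v m z : ℤ) : mk a b c u v m z 2 = c := rfl
theorem mk3 (a b c u v m z : ℤ) : mk a b c u v m z 3 = u := rfl
theorem mk4 (a b c u v m z : ℤ) : mk a b c u v m z 4 = v := rfl
theorem mk5 (a b c u v m z : ℤ) : mk a b c u v m z 5 = m := rfl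
theorem mk6 (a b c u v m z : ℤ) : mk a b c u v m z 6 = z := rfl

theorem ext7 {x y : NL} (h0 : x 0 = y 0) (h1 : x 1 = y 1) (h2 : x 2 = y 2) (h3 : x 3 = y 3)
    (h4 : x 4 = y 4) (h5 : x 5 = y 5) (h6 : x 6 = y 6) : x = y := by
  funext i
  fin_cases i
  exacts [h0, h1, h2, h3, h4, h5, h6]

instance : LieRing NL where
  add_lie x y z := by
    apply ext7 <;> simp only [add_app, br0, br1, br2, br3, br4, br5, br6] <;> ring
  lie_add x y z := by
    apply ext7 <;> simp only [add_app, br0, br1, br2, br3, br4, br5, br6] <;> ring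
  lie_self x := by
    apply ext7 <;> simp only [zero_app, br0, br1, br2, br3, br4, br5, br6] <;> ring
  leibniz_lie x y z := by
    apply ext7 <;> simp only [add_app, br0, br1, br2, br3, br4, br5, br6] <;> ring

end NL

/-! ### The maps on the group `IA_3` -/

/-- the degree one part of the map to `NL` -/
def tt (g : IA 3) : NL := NL.mk (tA g) (tB g) (tC g) 0 0 0 0

/-- the degree two part of the map to `NL` -/
def ss (g : IA 3) : NL := NL.mk 0 0 0 (sU g) (sV g) (sM g) 0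

theorem L_mul' (k : Fin 3) (g h : IA 3) :
    L k (g * h : MulAut F3) = L k (g : MulAut F3) + L k (h : MulAut F3) := L_mul k g.2 h.2

theorem L_one (k : Fin 3) : L k 1 = 0 := by
  have h := L_mul k (IA 3).one_mem (IA 3).one_mem
  rw [one_mul] at h
  simpa using h

theorem L_inv (k : Fin 3) {g : MulAut F3} (hg : g ∈ IA 3) : L k g⁻¹ = - L k g := by
  have h := L_mul k hg (inv_mem hg)
  rw [mul_inv_cancel, L_one] at h
  exact (neg_eq_of_add_eq_zero_right h.symm).symm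

/-- The linear terms vanish on the commutator subgroup. -/
theorem L_lcs (k : Fin 3) (g : IA 3) (hg : g ∈ lcs (IA 3) 1) : L k (g : MulAut F3) = 0 := by
  rw [lcs, Subgroup.mem_lowerCentralSeries_succ_iff] at hg
  induction hg using Subgroup.closure_induction with
  | mem x hx =>
    obtain ⟨y, -, z, -, rfl⟩ := hx
    exact L_comm k y.2 z.2
  | one => exact L_one k
  | mul x y _ _ hx hy => rw [Subgroup.coe_mul, L_mul k x.2 y.2, hx, hy, add_zero]
  | inv x _ hx => rw [Subgroup.coe_inv, L_inv k x.2, hx, neg_zero]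

theorem tt_mul (g h : IA 3) : tt (g * h) = tt g + tt h := by
  apply NL.ext7 <;> simp only [NL.add_app, tt, tA, tB, tC, Subgroup.coe_mul, L_mul', NL.mk0, NL.mk1, NL.mk2, NL.mk3,
    NL.mk4, NL.mk5, NL.mk6, Matrix.add_apply] <;> ring

theorem tt_lcs (g : IA 3) (hg : g ∈ lcs (IA 3) 1) : tt g = 0 := by
  apply NL.ext7 <;> simp only [NL.zero_app, tt, tA, tB, tC, L_lcs _ g hg, NL.mk0, NL.mk1, NL.mk2,
    NL.mk3, NL.mk4, NL.mk5, NL.mk6, Matrix.zero_apply] <;> ring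

theorem S_mul' (p q : Fin 3) (h : p ≠ q) (g k : IA 3) (hg : g ∈ lcs (IA 3) 1) :
    S p q h (g * k : MulAut F3) = S p q h (g : MulAut F3) + S p q h (k : MulAut F3) := by
  rw [S_mul p q h g.2 k.2, L_lcs p g hg, L_lcs q g hg, mul_zero, mul_zero, add_zero, add_zero]

theorem ss_mul (g h : IA 3) (hg : g ∈ lcs (IA 3) 1) : ss (g * h) = ss g + ss h := by
  apply NL.ext7 <;> simp only [NL.add_app, ss, sU, sV, sM, Subgroup.coe_mul, S_mul' _ _ _ g h hg,
    NL.mk0, NL.mk1, NL.mk2, NL.mk3, NL.mk4, NL.mk5, NL.mk6, Matrix.add_apply] <;> ring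

/-- `ss` of a commutator is the bracket. -/
theorem ss_comm (g h : IA 3) : ss ⁅g, h⁆ = ⁅tt g, tt h⁆ := by
  have e : ((⁅g, h⁆ : IA 3) : MulAut F3) = ⁅(g : MulAut F3), (h : MulAut F3)⁆ := rfl
  apply NL.ext7 <;> simp only [ss, e, sU_comm g.2 h.2, sV_comm g.2 h.2, sM_comm g.2 h.2, NL.br0,
    NL.br1, NL.br2, NL.br3, NL.br4, NL.br5, NL.br6, tt, NL.mk0, NL.mk1, NL.mk2, NL.mk3, NL.mk4,
    NL.mk5, NL.mk6] <;> ring

theorem ss_one : ss 1 = 0 := by
  have h := ss_mul 1 1 (one_mem _)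
  rw [one_mul] at h
  simpa using h

theorem ss_lcs (g : IA 3) (hg : g ∈ lcs (IA 3) 2) : ss g = 0 := by
  rw [lcs, Subgroup.mem_lowerCentralSeries_succ_iff] at hg
  have key : g ∈ lcs (IA 3) 1 ∧ ss g = 0 := by
    induction hg using Subgroup.closure_induction with
    | mem x hx =>
      obtain ⟨y, hy, z, -, rfl⟩ := hx
      have h1 : ⁅y, z⁆ ∈ lcs (IA 3) 1 :=
        lcs_anti (by omega) (lcs_comm_mem (m := 1) (n := 0) hy (Subgroup.mem_top z))
      refine ⟨h1, ?_⟩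
      rw [ss_comm, tt_lcs y hy, zero_lie]
    | one => exact ⟨one_mem _, ss_one⟩
    | mul x y _ _ hx hy =>
      refine ⟨mul_mem hx.1 hy.1, ?_⟩
      rw [ss_mul x y hx.1, hx.2, hy.2, add_zero]
    | inv x _ hx =>
      refine ⟨inv_mem hx.1, ?_⟩
      have h := ss_mul x x⁻¹ hx.1
      rw [mul_inv_cancel, ss_one, hx.2, zero_add] at h
      exact h.symm
  exact key.2

/-- The map on the degree one part of the Lie ring of `IA_3`. -/
def th : Grd (IA 3) 0 →+ NL := grLift 0 tt (fun g _ h _ => tt_mul g h) tt_lcs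

/-- The map on the degree two part of the Lie ring of `IA_3`. -/
def sg : Grd (IA 3) 1 →+ NL := grLift 1 ss (fun g hg h _ => ss_mul g h hg) ss_lcs

theorem sg_br (v w : Grd (IA 3) 0) : sg (grBr 0 0 v w) = ⁅th v, th w⁆ := by
  obtain ⟨g, rfl⟩ := grMk_surj 0 v
  obtain ⟨h, rfl⟩ := grMk_surj 0 w
  rw [grBr_mk]
  exact ss_comm (g : IA 3) (h : IA 3)

/-- The homomorphism from the free Lie ring. -/
noncomputable def Psi : FreeLie (Grd (IA 3) 0) →ₗ⁅ℤ⁆ NL := lift th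

theorem canon_deg2 (x : FreeLie (Grd (IA 3) 0)) (hx : x ∈ degTwo (Grd (IA 3) 0)) :
    ∃ y : Grd (IA 3) 1, canon (IA 3) x = ofL 1 y ∧ Psi x = sg y := by
  induction hx using AddSubgroup.closure_induction with
  | mem x hx =>
    obtain ⟨v, w, rfl⟩ := hx
    refine ⟨grBr 0 0 v w, ?_, ?_⟩
    · rw [LieHom.map_lie, canon, lift_ι, lift_ι]
      exact lieHom_of 0 0 v w
    · rw [LieHom.map_lie, Psi, lift_ι, lift_ι, sg_br]
  | zero => exact ⟨0, by simp, by simp⟩
  | add x y _ _ hx hy =>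
    obtain ⟨a, ha, ha'⟩ := hx
    obtain ⟨b, hb, hb'⟩ := hy
    exact ⟨a + b, by rw [map_add, map_add, ha, hb], by rw [map_add, map_add, ha', hb']⟩
  | neg x _ hx =>
    obtain ⟨a, ha, ha'⟩ := hx
    exact ⟨-a, by rw [map_neg, map_neg, ha], by rw [map_neg, map_neg, ha']⟩

theorem Psi_eq_zero (x : FreeLie (Grd (IA 3) 0)) (hx : x ∈ degTwo (Grd (IA 3) 0))
    (h : canon (IA 3) x = 0) : Psi x = 0 := by
  obtain ⟨y, hy, hy'⟩ := canon_deg2 x hx
  rw [h] at hy
  have h1 : ofL 1 y = ofL 1 (0 : Grd (IA 3) 1) := by rw [← hy, map_zero]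
  have h2 : y = 0 := DirectSum.of_injective (β := Grd (IA 3)) 1 h1
  rw [hy', h2, map_zero]

/-! ### Three automorphisms -/

/-- the generators -/
abbrev x (i : Fin 3) : F3 := FreeGroup.of i

/-- The endomorphism fixing `x 1`, `x 2` which sends `x 0` to `a`. -/
def endo (a : F3) : F3 →* F3 := FreeGroup.lift ![a, x 1, x 2]

@[simp] theorem endo0 (a : F3) : endo a (x 0) = a := by simp [endo]
@[simp] theorem endo1 (a : F3) : endo a (x 1) = x 1 := by simp [endo]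
@[simp] theorem endo2 (a : F3) : endo a (x 2) = x 2 := by simp [endo]

theorem hom_ext3 {H : Type*} [Group H] {f g : F3 →* H} (h0 : f (x 0) = g (x 0))
    (h1 : f (x 1) = g (x 1)) (h2 : f (x 2) = g (x 2)) : f = g := by
  apply FreeGroup.ext_hom
  intro i
  fin_cases i
  exacts [h0, h1, h2]

/-- The automorphism fixing `x 1`, `x 2` and sending `x 0` to `a`, if it exists. -/
def aut (a b : F3) (h : endo b a = x 0) (h' : endo a b = x 0) : MulAut F3 :=
  MonoidHom.toMulEquiv (endo a) (endo b)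
    (hom_ext3 (by simp [h]) (by simp) (by simp)) (hom_ext3 (by simp [h']) (by simp) (by simp))

theorem aut_apply (a b : F3) (h : endo b a = x 0) (h' : endo a b = x 0) (w : F3) :
    aut a b h h' w = endo a w := rfl

theorem aut_inv_apply (a b : F3) (h : endo b a = x 0) (h' : endo a b = x 0) (w : F3) :
    (aut a b h h')⁻¹ w = endo b w := rfl

theorem aut_mem (a b : F3) (h : endo b a = x 0) (h' : endo a b = x 0)
    (ha : Abelianization.of a = Abelianization.of (x 0)) : aut a b h h' ∈ IA 3 := by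
  intro w
  have h1 : (Abelianization.of.comp (endo a)) = (Abelianization.of : F3 →* _) :=
    hom_ext3 (by simp [ha]) (by simp) (by simp)
  exact DFunLike.congr_fun h1 w

/-- `x_1 ↦ x_2⁻¹ x_1 x_2` -/
def K12 : MulAut F3 := aut ((x 1)⁻¹ * x 0 * x 1) (x 1 * x 0 * (x 1)⁻¹)
  (by simp [map_mul]; group) (by simp [map_mul]; group)

/-- `x_1 ↦ x_3⁻¹ x_1 x_3` -/
def K13 : MulAut F3 := aut ((x 2)⁻¹ * x 0 * x 2) (x 2 * x 0 * (x 2)⁻¹)
  (by simp [map_mul]; group) (by simp [map_mul]; group)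

/-- `x_1 ↦ x_1 [x_2, x_3]` -/
def K123 : MulAut F3 := aut (x 0 * ⁅x 1, x 2⁆) (x 0 * ⁅x 1, x 2⁆⁻¹)
  (by simp [map_mul, commutatorElement_def]; group)
  (by simp [map_mul, commutatorElement_def]; group)

theorem K12_mem : K12 ∈ IA 3 := aut_mem _ _ _ _ (by simp [map_mul, mul_comm])

theorem K13_mem : K13 ∈ IA 3 := aut_mem _ _ _ _ (by simp [map_mul, mul_comm])

theorem K123_mem : K123 ∈ IA 3 := aut_mem _ _ _ _
  (by rw [map_mul, map_commutatorElement, commutatorElement_eq_one_iff_mul_comm.2 (mul_comm _ _),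
    mul_one])

theorem K_comm : ⁅K123, ⁅K12, K13⁆⁆ = 1 := by
  rw [commutatorElement_eq_one_iff_mul_comm]
  have h : (K123 * ⁅K12, K13⁆).toMonoidHom = (⁅K12, K13⁆ * K123).toMonoidHom := by
    apply hom_ext3
    · change K123 (K12 (K13 (K12⁻¹ (K13⁻¹ (x 0))))) = K12 (K13 (K12⁻¹ (K13⁻¹ (K123 (x 0)))))
      simp only [K12, K13, K123, aut_apply, aut_inv_apply, endo0, endo1, endo2, map_mul, map_inv,
        commutatorElement_def]
      group
    · change K123 (K12 (K13 (K12⁻¹ (K13⁻¹ (x 1))))) = K12 (K13 (K12⁻¹ (K13⁻¹ (K123 (x 1)))))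
      simp only [K12, K13, K123, aut_apply, aut_inv_apply, endo0, endo1, endo2, map_mul, map_inv,
        commutatorElement_def]
    · change K123 (K12 (K13 (K12⁻¹ (K13⁻¹ (x 2))))) = K12 (K13 (K12⁻¹ (K13⁻¹ (K123 (x 2)))))
      simp only [K12, K13, K123, aut_apply, aut_inv_apply, endo0, endo1, endo2, map_mul, map_inv,
        commutatorElement_def]
  ext1 w
  exact DFunLike.congr_fun h w

theorem e_inv (k : Fin 3) (w : F3) : e k w⁻¹ = - e k w := by simp [e]

theorem f_one (k j : Fin 3) : f k j 1 = 0 := by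
  have h := f_mul k j 1 1
  simp [e] at h
  exact h

theorem f_inv (k j : Fin 3) (w : F3) : f k j w⁻¹ = - f k j w + e k w * e j w := by
  have h := f_mul k j w w⁻¹
  rw [mul_inv_cancel, f_one, e_inv] at h
  linarith

theorem tt_K12 : tt ⟨K12, K12_mem⟩ = NL.mk 1 0 0 0 0 0 0 := by
  simp [tt, tA, tB, tC, L, K12, aut_apply, f_mul, f_inv, e_mul, e_inv, f_of, e_of, x]

theorem tt_K13 : tt ⟨K13, K13_mem⟩ = NL.mk 0 1 0 0 0 0 0 := by
  simp [tt, tA, tB, tC, L, K13, aut_apply, f_mul, f_inv, e_mul, e_inv, f_of, e_of, x]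

theorem tt_K123 : tt ⟨K123, K123_mem⟩ = NL.mk 0 0 1 0 0 0 0 := by
  simp [tt, tA, tB, tC, L, K123, aut_apply, f_mul, f_inv, e_mul, e_inv, f_of, e_of, x,
    commutatorElement_def]

/-- The class of an element of `IA_3` in the degree one part. -/
def cl (g : MulAut F3) (hg : g ∈ IA 3) : Grd (IA 3) 0 := grMk 0 ⟨⟨g, hg⟩, Subgroup.mem_top _⟩

theorem th_cl (g : MulAut F3) (hg : g ∈ IA 3) : th (cl g hg) = tt ⟨g, hg⟩ := rfl

/-- The cubic relation. -/
noncomputable def rel : FreeLie (Grd (IA 3) 0) :=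
  ⁅ι (cl K123 K123_mem), ⁅ι (cl K12 K12_mem), ι (cl K13 K13_mem)⁆⁆

theorem canon_rel : canon (IA 3) rel = 0 := by
  rw [rel, LieHom.map_lie, LieHom.map_lie, canon, lift_ι, lift_ι, lift_ι]
  have h1 : (⁅ofL 0 (cl K12 K12_mem), ofL 0 (cl K13 K13_mem)⁆ : AssocLie (IA 3)) =
      mkL (0 + 0 + 1) ⟨⁅(⟨K12, K12_mem⟩ : IA 3), ⟨K13, K13_mem⟩⁆,
        lcs_comm_mem (m := 0) (n := 0) (Subgroup.mem_top _) (Subgroup.mem_top _)⟩ :=
    lieHom_mkL 0 0 _ _
  rw [h1]
  have h2 := lieHom_mkL 0 (0 + 0 + 1)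
    (⟨⟨K123, K123_mem⟩, Subgroup.mem_top _⟩ : lcs (IA 3) 0)
    ⟨⁅(⟨K12, K12_mem⟩ : IA 3), ⟨K13, K13_mem⟩⁆,
        lcs_comm_mem (m := 0) (n := 0) (Subgroup.mem_top _) (Subgroup.mem_top _)⟩
  refine h2.trans ?_
  rw [← mkL_one (0 + (0 + 0 + 1) + 1)]
  apply mkL_congr rfl
  exact Subtype.ext K_comm

theorem Psi_rel : Psi rel = NL.mk 0 0 0 0 0 0 1 := by
  rw [rel, LieHom.map_lie, LieHom.map_lie, Psi, lift_ι, lift_ι, lift_ι, th_cl, th_cl, th_cl,
    tt_K12, tt_K13, tt_K123]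
  apply NL.ext7 <;> simp only [NL.br0, NL.br1, NL.br2, NL.br3, NL.br4, NL.br5, NL.br6, NL.mk0,
    NL.mk1, NL.mk2, NL.mk3, NL.mk4, NL.mk5, NL.mk6] <;> norm_num

theorem main (n : ℤ) (hn : n ≠ 0) :
    n • rel ∉ LieSubmodule.lieSpan ℤ (FreeLie (Grd (IA 3) 0))
      {y : FreeLie (Grd (IA 3) 0) | y ∈ degTwo (Grd (IA 3) 0) ∧ canon (IA 3) y = 0} := by
  intro h
  have h1 : Psi (n • rel) = 0 := span_le_ker Psi _ (fun y hy => Psi_eq_zero y hy.1 hy.2) h
  rw [map_zsmul, Psi_rel] at h1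
  have h2 := congrFun h1 6
  have h3 : (n • NL.mk 0 0 0 0 0 0 1) 6 = n * 1 := rfl
  rw [h3, mul_one] at h2
  exact hn h2

end Pool.Agent.Zk64.QL
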